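import Pool.Agent.helper80.EN.Spec2

set_option autoImplicit false

namespace Pool.Agent.helper80.EN

open Subgroup

universe u

theorem TLI (hLNA : LNA_stmt.{u}) : TLI_stmt.{u} := by
  intro G V _ _ d hact A hA hinv hst
  obtain ⟨f, hf, rfl⟩ := hA
  have hinj : Function.Injective f := by
    intro m n h
    have h1 := hf m n
    rw [h, (hact.tm.eq (f n) (f n)).2 rfl] at h1
    have h2 : |m - n| = 0 := by simpa using h1.symm
    exact sub_eq_zero.1 (abs_eq_zero.1 h2)
  have key : ∀ g : G, ∃ ε t : ℤ, (ε = 1 ∨ ε = -1) ∧ ∀ n, g • f n = f (ε * n + t) := by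
    intro g
    have hp : Par d (fun n => g • f n) := by
      intro m n
      show (d (g • f m) (g • f n) : ℤ) = |m - n|
      rw [hact.iso]; exact hf m n
    refine (hLNA V d hact.tm).2.1 _ f hp hf ?_
    intro n
    obtain ⟨m, hm⟩ := hinv g (f n) ⟨n, rfl⟩
    exact ⟨m, hm.symm⟩
  choose ε t hε ht using key
  have hu : ∀ (g : G) (a b : ℤ), (∀ n, g • f n = f (a * n + b)) → ε g = a ∧ t g = b := by
    intro g a b h
    have h0 := hinj ((ht g 0).symm.trans (h 0))
    have h1 := hinj ((ht g 1).symm.trans (h 1))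
    constructor <;> linarith
  have hone : ε 1 = 1 ∧ t 1 = 0 := hu 1 1 0 (fun n => by simp)
  have hmul : ∀ g h, ε (g * h) = ε g * ε h ∧ t (g * h) = ε g * t h + t g := fun g h =>
    hu (g * h) _ _ (fun n => by
      rw [mul_smul, ht h, ht g]
      congr 1
      ring)
  let φ0 : G →* Matrix (Fin 2) (Fin 2) (ULift.{u} ℚ) :=
    { toFun := fun g => !![((ε g : ℤ) : ULift.{u} ℚ), ((t g : ℤ) : ULift.{u} ℚ); 0, 1]
      map_one' := by
        rw [hone.1, hone.2]
        ext i j
        fin_cases i <;> fin_cases j <;> simp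
      map_mul' := by
        intro g h
        rw [(hmul g h).1, (hmul g h).2, Matrix.mul_fin_two]
        congr 1
        ext i j
        fin_cases i <;> fin_cases j <;> simp }
  let φ : G →* GL (Fin 2) (ULift.{u} ℚ) := φ0.toHomUnits
  have hφ : ∀ g, φ g = 1 → ε g = 1 ∧ t g = 0 := by
    intro g hg
    have h1 : φ0 g = 1 := by
      have := congrArg Units.val hg
      simpa [φ] using this
    have h2 : ((ε g : ℤ) : ULift.{u} ℚ) = 1 := by
      have := congrFun (congrFun h1 0) 0
      simpa [φ0] using this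
    have h3 : ((t g : ℤ) : ULift.{u} ℚ) = 0 := by
      have := congrFun (congrFun h1 0) 1
      simpa [φ0] using this
    have h2' := congrArg ULift.down h2
    have h3' := congrArg ULift.down h3
    simp only [ULift.down_intCast, ULift.one_down, ULift.zero_down] at h2' h3'
    exact ⟨by exact_mod_cast h2', by exact_mod_cast h3'⟩
  refine InL.ext φ.ker ?_ ?_
  · have h01 : d (f 0) (f 1) = 1 := by
      have := hf 0 1
      simpa using this
    have hmem : ∀ g : φ.ker, g.1 ∈ (MulAction.stabilizer G (f 0) ⊓ MulAction.stabilizer G (f 1) : Subgroup G) := by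
      intro g
      obtain ⟨h1, h2⟩ := hφ g.1 g.2
      refine ⟨?_, ?_⟩
      · show g.1 • f 0 = f 0
        rw [ht, h1, h2]; simp
      · show g.1 • f 1 = f 1
        rw [ht, h1, h2]; simp
    refine InL.sub (H := (MulAction.stabilizer G (f 0) ⊓ MulAction.stabilizer G (f 1) : Subgroup G))
      (Subgroup.inclusion (fun g hg => hmem ⟨g, hg⟩)) (Subgroup.inclusion_injective _) (hst _ _ h01)
  · exact InL.linear (ULift.{u} ℚ) 2 (QuotientGroup.kerLift φ) (QuotientGroup.kerLift_injective φ)

end Pool.Agent.helper80.EN
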